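import Pool.Agent.Helper33.QB.Defs
import Pool.Agent.Helper84.QB.Acts
import Pool.Agent.Helper61.QB.Order

/-!
# Project QB (MP_0eabd7), module K1: `bel_le`, `bel_inh`
-/

set_option autoImplicit false
set_option linter.unusedVariables false

namespace Pool.Agent.Helper33.QB

open Set

universe v

variable {Ω : Type} {I : Type v} {α : Ordinal.{0}}

section K0

variable {pn : ℕ → Cnd Ω I} {s p q q' r : Cnd Ω I} {i j m : I}

theorem k1_mem_old {x : Ω} : x ∈ old pn ↔ ∃ n, x ∈ (pn n).Y := by simp [old]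

theorem k1_sub_old (n : ℕ) : (pn n).Y ⊆ old pn := fun _ hx => k1_mem_old.2 ⟨n, hx⟩

theorem k1_old_sub (hs : Semi α pn s) : old pn ⊆ s.Y := by
  intro x hx
  obtain ⟨n, hn⟩ := k1_mem_old.1 hx
  exact (hs.cp n).sub hn

theorem k1_S_sub (hs : Semi α pn s) (n : ℕ) : (pn n).S ⊆ s.S := by
  intro i hi
  rw [hs.S]
  exact mem_iUnion.2 ⟨n, hi⟩

theorem k1_seq (hb : ∀ n, Basic α (pn n)) (hle : ∀ n, Le (pn (n + 1)) (pn n)) {m n : ℕ}
    (hmn : m ≤ n) : Le (pn n) (pn m) := by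
  induction n, hmn using Nat.le_induction with
  | base => exact Le.refl' (hb m).gr
  | succ n _ ih => exact Le.trans' (hb (n + 1)) (hb n) (hle n) ih

/-- Letters of `pn n` map the old part to itself. -/
theorem k1_old_old (hs : Semi α pn s) (hb : ∀ n, Basic α (pn n))
    (hle : ∀ n, Le (pn (n + 1)) (pn n)) {n : ℕ} {i : I} (hi : i ∈ (pn n).S) {x : Ω}
    (hx : x ∈ old pn) : s.h i x ∈ old pn := by
  obtain ⟨m, hm⟩ := k1_mem_old.1 hx
  have h1 : Le (pn (max m n)) (pn m) := k1_seq hb hle (le_max_left m n)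
  have h2 : Le (pn (max m n)) (pn n) := k1_seq hb hle (le_max_right m n)
  have hx' : x ∈ (pn (max m n)).Y := h1.cp.sub hm
  have hi' : i ∈ (pn (max m n)).S := h2.S hi
  rw [hs.h _ i hi' x hx']
  exact k1_sub_old _ (((hb _).ce i hi').maps x hx')

end K0

section K1

variable [LinearOrder I] {pn : ℕ → Cnd Ω I} {s p q q' r : Cnd Ω I} {i j m : I}

/-- `res` does not change the space. -/
theorem k1_cp_res {p q : Cnd Ω I} (h : Cp p q) (j : I) : Cp (QB.res p j) q :=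
  ⟨h.sub, h.ring, h.cut, h.rk⟩

theorem k1_cp_of_res {p q : Cnd Ω I} {j : I} (h : Cp (QB.res p j) q) : Cp p q :=
  ⟨h.sub, h.ring, h.cut, h.rk⟩

theorem k1_res_h {p : Cnd Ω I} {j i : I} (hi : i < j) : (QB.res p j).h i = p.h i := by
  simp [QB.res, hi]

theorem k1_mem_res_S {p : Cnd Ω I} {j i : I} : i ∈ (QB.res p j).S ↔ i ∈ p.S ∧ i < j := Iff.rfl

/-- `Bel` implies that `q` is below the restrictions of the sequence. -/
theorem bel_le (hs : Semi α pn s) (hb : ∀ n, Basic α (pn n))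
    (hle : ∀ n, Le (pn (n + 1)) (pn n)) (hq : Basic α q)
    (hB : Bel pn s j q) (n : ℕ) : Le q (res (pn n) j) := by
  classical
  have hcp : Cp (pn n) q := Cp.trans' (hs.cp n) hB.cp
  -- the edges of `New`
  have hin : ∀ i x y, New (QB.res (pn n) j) q i x y → (x ∈ old pn ↔ y ∈ old pn) := by
    rintro i x y ⟨⟨hi, hij⟩, hx, hxn, rfl⟩
    have his : i ∈ s.S := k1_S_sub hs n hi
    constructor
    · intro hxo
      rw [hB.h i his hij x (k1_old_sub hs hxo)]
      exact k1_old_old hs hb hle hi hxo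
    · intro hyo
      by_contra hxo
      exact hB.out i his hij x hx hxo hyo
  have hA : ∀ g x y, x ∈ old pn → Acts (New (QB.res (pn n) j) q) g x y →
      Acts (fun i x y => i ∈ (pn n).S ∧ x ∈ old pn ∧ x ∉ (pn n).Y ∧ y = s.h i x) g x y := by
    intro g x y hx h
    refine (h.restrict hin hx).mono ?_
    rintro i x y ⟨⟨⟨hi, hij⟩, hx, hxn, rfl⟩, hxo⟩
    exact ⟨hi, hxo, hxn, hB.h i (k1_S_sub hs n hi) hij x (k1_old_sub hs hxo)⟩
  have hA' : ∀ g x y, x ∉ old pn → Acts (New (QB.res (pn n) j) q) g x y →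
      Acts (BG pn s j q) g x y := by
    intro g x y hx h
    have hin' : ∀ i x y, New (QB.res (pn n) j) q i x y → (x ∈ (old pn)ᶜ ↔ y ∈ (old pn)ᶜ) := by
      intro i x y hxy
      rw [mem_compl_iff, mem_compl_iff, hin i x y hxy]
    refine (h.restrict hin' hx).mono ?_
    rintro i x y ⟨⟨⟨hi, hij⟩, hx, hxn, rfl⟩, hxo⟩
    exact ⟨k1_S_sub hs n hi, hxo, Or.inl ⟨hij, hx, rfl⟩⟩
  refine ⟨k1_cp_res hcp j, ?_, ?_, ?_, ?_, ?_⟩
  · rintro i ⟨hi, hij⟩
    exact hB.S i (k1_S_sub hs n hi) hij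
  · rintro i ⟨hi, hij⟩ x hx
    rw [k1_res_h hij, hB.h i (k1_S_sub hs n hi) hij x ((hs.cp n).sub hx), hs.h n i hi x hx]
  · rintro i ⟨hi, hij⟩ x hx hxn
    by_cases hxo : x ∈ old pn
    · rw [hB.h i (k1_S_sub hs n hi) hij x (k1_old_sub hs hxo)]
      exact hs.out n i hi x (k1_old_sub hs hxo) hxn
    · exact fun h => hB.out i (k1_S_sub hs n hi) hij x hx hxo (k1_sub_old n h)
  · intro g x h
    by_cases hxo : x ∈ old pn
    · exact hs.fr n g x (hA g x x hxo h)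
    · exact hB.fr g x (hA' g x x hxo h)
  · intro K hK
    have hKs : K ∩ s.Y ∈ s.R := (hB.cp.ring _).2 ⟨hB.cp.cut K hK, inter_subset_right⟩
    refine ((hs.pr n (K ∩ s.Y) hKs).union (hB.pr K hK)).subset ?_
    rintro g ⟨x, hx, y, hy, h⟩
    by_cases hxo : x ∈ old pn
    · left
      have hyo : y ∈ old pn := (h.stay hin).1 hxo
      exact ⟨x, ⟨hx, k1_old_sub hs hxo⟩, y, ⟨hy, k1_old_sub hs hyo⟩, hA g x y hxo h⟩
    · right
      exact ⟨x, hx, y, hy, hA' g x y hxo h⟩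

/-- `Bel` is inherited by stronger conditions. -/
theorem bel_inh (hs : Semi α pn s) (hb : ∀ n, Basic α (pn n)) (hq : Basic α q)
    (hq' : Basic α q') (hB : Bel pn s j q) (hle : Le q' q) :
    Bel pn s j q' ∧ ∀ g x y, x ∈ q.Y → Acts (BG pn s j q') g x y → Acts (BG pn s j q) g x y := by
  classical
  have hoq : old pn ⊆ q.Y := (k1_old_sub hs).trans hB.cp.sub
  have hin : ∀ i x y, BG pn s j q' i x y → (x ∈ q.Y ↔ y ∈ q.Y) := by
    rintro i x y ⟨his, hxo, ⟨hij, hx, rfl⟩ | ⟨hji, hx, rfl⟩⟩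
    · have hiq : i ∈ q.S := hB.S i his hij
      constructor
      · intro hxq
        rw [hle.h i hiq x hxq]
        exact (hq.ce i hiq).maps x hxq
      · intro hy
        by_contra hxq
        exact hle.out i hiq x hx hxq hy
    · exact ⟨fun _ => hB.cp.sub ((hs.basic.ce i his).maps x hx), fun _ => hB.cp.sub hx⟩
  have hA : ∀ g x y, x ∈ q.Y → Acts (BG pn s j q') g x y → Acts (BG pn s j q) g x y := by
    intro g x y hx h
    refine (h.restrict hin hx).mono ?_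
    rintro i x y ⟨⟨his, hxo, ⟨hij, hx, rfl⟩ | ⟨hji, hx, rfl⟩⟩, hxq⟩
    · exact ⟨his, hxo, Or.inl ⟨hij, hxq, hle.h i (hB.S i his hij) x hxq⟩⟩
    · exact ⟨his, hxo, Or.inr ⟨hji, hx, rfl⟩⟩
  have hA' : ∀ g x y, x ∉ q.Y → Acts (BG pn s j q') g x y → Acts (New q q') g x y := by
    intro g x y hx h
    have hin' : ∀ i x y, BG pn s j q' i x y → (x ∈ (q.Y)ᶜ ↔ y ∈ (q.Y)ᶜ) := by
      intro i x y hxy
      rw [mem_compl_iff, mem_compl_iff, hin i x y hxy]
    refine (h.restrict hin' hx).mono ?_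
    rintro i x y ⟨⟨his, hxo, ⟨hij, hx, rfl⟩ | ⟨hji, hx, rfl⟩⟩, hxq⟩
    · exact ⟨hB.S i his hij, hx, hxq, rfl⟩
    · exact absurd (hB.cp.sub hx) hxq
  refine ⟨⟨Cp.trans' hB.cp hle.cp, ?_, ?_, ?_, ?_, ?_⟩, hA⟩
  · exact fun i his hij => hle.S (hB.S i his hij)
  · intro i his hij x hx
    rw [hle.h i (hB.S i his hij) x (hB.cp.sub hx), hB.h i his hij x hx]
  · intro i his hij x hx hxo
    by_cases hxq : x ∈ q.Y
    · rw [hle.h i (hB.S i his hij) x hxq]
      exact hB.out i his hij x hxq hxo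
    · exact fun h => hle.out i (hB.S i his hij) x hx hxq (hoq h)
  · intro g x h
    by_cases hxq : x ∈ q.Y
    · exact hB.fr g x (hA g x x hxq h)
    · exact hle.fr g x (hA' g x x hxq h)
  · intro K hK
    have hKq : K ∩ q.Y ∈ q.R := (hle.cp.ring _).2 ⟨hle.cp.cut K hK, inter_subset_right⟩
    refine ((hB.pr (K ∩ q.Y) hKq).union (hle.pr K hK)).subset ?_
    rintro g ⟨x, hx, y, hy, h⟩
    by_cases hxq : x ∈ q.Y
    · left
      have hyq : y ∈ q.Y := (h.stay hin).1 hxq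
      exact ⟨x, ⟨hx, hxq⟩, y, ⟨hy, hyq⟩, hA g x y hxq h⟩
    · right
      exact ⟨x, hx, y, hy, hA' g x y hxq h⟩

end K1

end Pool.Agent.Helper33.QB
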