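import Pool.Agent.Helper46.QB.Ring2
import Pool.Agent.Helper90.QB.Bel1

/-!
# Project QB (MP_0eabd7), module K2: `semi_const`, `bel_const`, `bel_cl`
-/

set_option autoImplicit false
set_option linter.unusedVariables false

namespace Pool.Agent.Helper33.QB

open Set

universe v

variable {Ω : Type} {I : Type v} {α : Ordinal.{0}}

section K2a

variable {pn : ℕ → Cnd Ω I} {s p q q' r : Cnd Ω I} {i j m : I}

/-- A graph without edges. -/
theorem k2_acts_empty {G : I → Ω → Ω → Prop} (hG : ∀ i x y, ¬ G i x y) {g : FreeGroup I}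
    {x y : Ω} (h : Acts G g x y) : g = 1 := by
  cases h with
  | one => rfl
  | fwd _ h => exact absurd h (hG _ _ _)
  | bwd _ h => exact absurd h (hG _ _ _)

theorem k2_old_const : old (fun _ => p) = p.Y := by
  ext x
  simp [old]

theorem semi_const (hp : Basic α p) : Semi α (fun _ => p) p := by
  have ho : old (fun _ => p) = p.Y := k2_old_const
  refine ⟨hp, ?_, ?_, ?_, ?_, ?_, ?_, ?_, ?_, ?_, ?_⟩
  · exact (iUnion_const _).symm
  · exact fun _ => Cp.refl' hp.gr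
  · exact fun _ _ _ _ _ => rfl
  · exact fun _ _ _ x hx hx' => absurd hx hx'
  · intro K hK
    rw [ho, sdiff_eq_empty.2 (hp.gr.sub K hK)]
    exact finite_empty
  · intro i _ x hx hx'
    rw [ho] at hx'
    exact absurd hx hx'
  · rintro i hi y ⟨x, hx, rfl⟩ hy
    rw [ho] at hy
    exact absurd ((hp.ce i hi).maps x hx) hy
  · intro g x h
    refine k2_acts_empty ?_ h
    rintro i x y ⟨_, hx, hx', _⟩
    rw [ho] at hx'
    exact hx' hx
  · intro n K _
    refine (finite_singleton (1 : FreeGroup I)).subset ?_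
    rintro g ⟨x, _, y, _, h⟩
    refine k2_acts_empty ?_ h
    rintro i x y ⟨_, hx, hx', _⟩
    rw [ho] at hx
    exact hx' hx
  · intro n g x h
    refine k2_acts_empty ?_ h
    rintro i x y ⟨_, hx, hx', _⟩
    rw [ho] at hx
    exact hx' hx

/-- Images of closed sets under closed embeddings are closed. -/
theorem k2_ce_closed {Y : Set Ω} {R : Set (Set Ω)} (hR : ∀ K ∈ R, K ⊆ Y) {h : Ω → Ω}
    (hce : CE Y R h) {C : Set Ω} (hC : Cl Y R C) : Cl Y R (h '' C) := by
  refine ⟨?_, ?_⟩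
  · rintro _ ⟨x, hx, rfl⟩
    exact hce.maps x (hC.1 hx)
  · intro y hy hyC
    by_cases hyY : y ∈ h '' Y
    · obtain ⟨x, hx, rfl⟩ := hyY
      have hxC : x ∉ C := fun hxC => hyC ⟨x, hxC, rfl⟩
      obtain ⟨K, hK, hxK, hKC⟩ := hC.2 x hx hxC
      obtain ⟨K', hK', he⟩ := hce.img K hK
      have hxK' : h x ∈ K' ∩ h '' Y := he ▸ ⟨x, hxK, rfl⟩
      refine ⟨K', hK', hxK'.1, ?_⟩
      ext z
      simp only [mem_inter_iff, mem_empty_iff_false, iff_false, not_and]
      rintro hz ⟨w, hw, rfl⟩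
      have hw' : h w ∈ h '' K := by
        rw [he]
        exact ⟨hz, ⟨w, hC.1 hw, rfl⟩⟩
      obtain ⟨v, hv, hvw⟩ := hw'
      have : v = w := hce.inj (hR K hK hv) (hC.1 hw) hvw
      subst this
      have : v ∈ K ∩ C := ⟨hv, hw⟩
      rw [hKC] at this
      exact this
    · obtain ⟨K, hK, hyK, hKY⟩ := hce.closed.2 y hy hyY
      refine ⟨K, hK, hyK, ?_⟩
      ext z
      simp only [mem_inter_iff, mem_empty_iff_false, iff_false, not_and]
      rintro hz ⟨w, hw, rfl⟩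
      have : h w ∈ K ∩ h '' Y := ⟨hz, w, hC.1 hw, rfl⟩
      rw [hKY] at this
      exact this

end K2a

section K2b

variable [LinearOrder I] {pn : ℕ → Cnd Ω I} {s p q q' r : Cnd Ω I} {i j m : I}

theorem bel_const (hp : Basic α p) (hr : Basic α r) (hle : Le r (res p j)) :
    Bel (fun _ => p) p j r := by
  have ho : old (fun _ => p) = p.Y := k2_old_const
  have hG : ∀ i x y, BG (fun _ => p) p j r i x y → New (QB.res p j) r i x y := by
    rintro i x y ⟨hi, hxo, ⟨hij, hx, rfl⟩ | ⟨hji, hx, rfl⟩⟩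
    · rw [ho] at hxo
      exact ⟨⟨hi, hij⟩, hx, hxo, rfl⟩
    · rw [ho] at hxo
      exact absurd hx hxo
  refine ⟨k1_cp_of_res hle.cp, ?_, ?_, ?_, ?_, ?_⟩
  · exact fun i hi hij => hle.S ⟨hi, hij⟩
  · intro i hi hij x hx
    rw [hle.h i ⟨hi, hij⟩ x hx, k1_res_h hij]
  · intro i hi hij x hx hxo
    rw [ho] at hxo ⊢
    exact hle.out i ⟨hi, hij⟩ x hx hxo
  · exact Free.mono hG hle.fr
  · exact Proper.mono hG hle.pr

/-- The closedness of the letters on the new part. -/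
theorem bel_cl (hs : Semi α pn s) (hb : ∀ n, Basic α (pn n)) (hle : ∀ n, Le (pn (n + 1)) (pn n))
    (hq : Basic α q) (hB : Bel pn s j q) :
    Cl q.Y q.R (q.Y \ old pn) ∧ PF (BG pn s j q) ∧
      ClSys (q.Y \ old pn) (tr q.R (q.Y \ old pn)) (BG pn s j q) := by
  have hsq : s.Y ⊆ q.Y := hB.cp.sub
  have hL : Cl q.Y q.R (q.Y \ old pn) := by
    refine ⟨sdiff_subset, ?_⟩
    intro x hx hxn
    have hxo : x ∈ old pn := by
      by_contra h
      exact hxn ⟨hx, h⟩
    obtain ⟨n, hn⟩ := k1_mem_old.1 hxo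
    obtain ⟨K, hK, hxK⟩ := (hb n).gr.cov x hn
    have hKq : K ∈ q.R := ((hB.cp.ring K).1 (((hs.cp n).ring K).1 hK).1).1
    refine ⟨K, hKq, hxK, ?_⟩
    ext z
    simp only [mem_inter_iff, mem_sdiff, mem_empty_iff_false, iff_false, not_and, not_not]
    intro hz _
    exact k1_sub_old n ((hb n).gr.sub K hK hz)
  have hPF : PF (BG pn s j q) := by
    constructor
    · rintro i x y z ⟨hi, _, ⟨hij, hx, rfl⟩ | ⟨hji, hx, rfl⟩⟩ ⟨_, _, ⟨hij', hx', rfl⟩ | ⟨hji', hx', rfl⟩⟩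
      · rfl
      · exact absurd hij (not_lt.2 hji')
      · exact absurd hij' (not_lt.2 hji)
      · rfl
    · rintro i x y z ⟨hi, _, ⟨hij, hx, hz⟩ | ⟨hji, hx, hz⟩⟩ ⟨_, _, ⟨hij', hx', hz'⟩ | ⟨hji', hx', hz'⟩⟩
      · exact (hq.ce i (hB.S i hi hij)).inj hx hx' (hz.symm.trans hz')
      · exact absurd hij (not_lt.2 hji')
      · exact absurd hij' (not_lt.2 hji)
      · exact (hs.basic.ce i hi).inj hx hx' (hz.symm.trans hz')
  -- subsets of the new part of `s` are closed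
  have hfin : ∀ C : Set Ω, C ⊆ s.Y \ old pn → Cl (q.Y \ old pn) (tr q.R (q.Y \ old pn)) C := by
    intro C hC
    have h1 : Cl q.Y q.R C := by
      refine Cl.of_finite hq.gr (fun x hx => hsq (hC hx).1) ?_
      intro K hK
      have hKs : K ∩ s.Y ∈ s.R := (hB.cp.ring _).2 ⟨hB.cp.cut K hK, inter_subset_right⟩
      refine (hs.fin _ hKs).subset ?_
      rintro x ⟨hxK, hxC⟩
      exact ⟨⟨hxK, (hC hxC).1⟩, (hC hxC).2⟩
    exact Cl.tr hL h1 fun x hx => ⟨hsq (hC hx).1, (hC hx).2⟩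
  have hemp : Cl (q.Y \ old pn) (tr q.R (q.Y \ old pn)) ∅ := hfin ∅ (empty_subset _)
  refine ⟨hL, hPF, ?_, ?_, ?_⟩
  · rintro i x y ⟨hi, hxo, ⟨hij, hx, rfl⟩ | ⟨hji, hx, rfl⟩⟩
    · exact ⟨⟨hx, hxo⟩, (hq.ce i (hB.S i hi hij)).maps x hx, hB.out i hi hij x hx hxo⟩
    · exact ⟨⟨hsq hx, hxo⟩, hsq ((hs.basic.ce i hi).maps x hx), hs.LL i hi x hx hxo⟩
  · intro i C hC
    by_cases hi : i ∈ s.S
    · rcases lt_or_ge i j with hij | hji
      · have h1 : {y | ∃ x ∈ C, BG pn s j q i x y} = q.h i '' C := by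
          ext y
          constructor
          · rintro ⟨x, hx, _, _, ⟨_, hxq, rfl⟩ | ⟨hji, _, _⟩⟩
            · exact ⟨x, hx, rfl⟩
            · exact absurd hij (not_lt.2 hji)
          · rintro ⟨x, hx, rfl⟩
            exact ⟨x, hx, hi, (hC.1 hx).2, Or.inl ⟨hij, (hC.1 hx).1, rfl⟩⟩
        rw [h1]
        have hC' : Cl q.Y q.R C := Cl.trans hL hC hq.gr
        refine Cl.tr hL (k2_ce_closed hq.gr.sub (hq.ce i (hB.S i hi hij)) hC') ?_
        rintro _ ⟨x, hx, rfl⟩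
        exact ⟨(hq.ce i (hB.S i hi hij)).maps x (hC.1 hx).1, hB.out i hi hij x (hC.1 hx).1 (hC.1 hx).2⟩
      · refine hfin _ ?_
        rintro y ⟨x, hx, _, hxo, ⟨hij, _, _⟩ | ⟨_, hxs, rfl⟩⟩
        · exact absurd hij (not_lt.2 hji)
        · exact ⟨(hs.basic.ce i hi).maps x hxs, hs.LL i hi x hxs hxo⟩
    · have h1 : {y | ∃ x ∈ C, BG pn s j q i x y} = ∅ := by
        ext y
        simp only [mem_ofPred_eq, mem_empty_iff_false, iff_false]
        rintro ⟨x, _, h, _⟩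
        exact hi h
      rw [h1]
      exact hemp
  · intro i C hC
    by_cases hi : i ∈ s.S
    · rcases lt_or_ge i j with hij | hji
      · have hC' : Cl q.Y q.R C := Cl.trans hL hC hq.gr
        have hce := hq.ce i (hB.S i hi hij)
        have h2 : Cl q.Y q.R {x | x ∈ q.Y ∧ q.h i x ∈ C} := by
          refine ⟨fun x hx => hx.1, ?_⟩
          intro x hx hxn
          have hxC : q.h i x ∉ C := fun h => hxn ⟨hx, h⟩
          obtain ⟨K, hK, hxK, hKC⟩ := hC'.2 _ (hce.maps x hx) hxC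
          refine ⟨_, hce.pre K hK, ⟨hx, hxK⟩, ?_⟩
          ext z
          simp only [mem_inter_iff, mem_ofPred_eq, mem_empty_iff_false, iff_false, not_and]
          rintro ⟨hz, hzK⟩ _ hzC
          have : q.h i z ∈ K ∩ C := ⟨hzK, hzC⟩
          rw [hKC] at this
          exact this
        have h1 : {x | ∃ y ∈ C, BG pn s j q i x y} =
            {x | x ∈ q.Y ∧ q.h i x ∈ C} ∩ (q.Y \ old pn) := by
          ext x
          constructor
          · rintro ⟨y, hy, _, hxo, ⟨_, hxq, rfl⟩ | ⟨hji, _, _⟩⟩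
            · exact ⟨⟨hxq, hy⟩, hxq, hxo⟩
            · exact absurd hij (not_lt.2 hji)
          · rintro ⟨⟨hx, hxC⟩, _, hxo⟩
            exact ⟨_, hxC, hi, hxo, Or.inl ⟨hij, hx, rfl⟩⟩
        rw [h1]
        exact Cl.tr hL (Cl.inter h2 hL) inter_subset_right
      · refine hfin _ ?_
        rintro x ⟨y, hy, _, hxo, ⟨hij, _, _⟩ | ⟨_, hxs, rfl⟩⟩
        · exact absurd hij (not_lt.2 hji)
        · exact ⟨hxs, hxo⟩
    · have h1 : {x | ∃ y ∈ C, BG pn s j q i x y} = ∅ := by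
        ext y
        simp only [mem_ofPred_eq, mem_empty_iff_false, iff_false]
        rintro ⟨x, _, h, _⟩
        exact hi h
      rw [h1]
      exact hemp

end K2b

end Pool.Agent.Helper33.QB
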