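import Pool.Agent.Helper33.QB.Frame
import Pool.Agent.Helper55.QB.Res
import Pool.Agent.Helper6.QB.Closing

/-!
# Project QB (MP_0eabd7), module P4: `exists_closed`
-/

set_option autoImplicit false
set_option linter.unusedVariables false

namespace Pool.Agent.Helper33.QB

open Set Pool.Agent.Helper33.HMG Pool.Agent.Helper32.HB

section P4

variable {Ω : Type} {α : Ordinal.{0}} {b : Ordinal.{0} → NmD Ω Ordinal.{0}}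

/-- The dense properties of `exists_closed`. -/
def P4D (inn : CP Ω α b → Ω → Prop) (p0 : CP Ω α b) :
    (Ω ⊕ Ω) ⊕ Unit → CP Ω α b → CP Ω α b → Prop
  | .inl (.inl x), _, q => inn q x ∨ ∀ q' ≤ q, ¬ inn q' x
  | .inl (.inr x), p, q => p ≤ p0 → x ∈ p.1.Y → (∀ q' ≤ p, ¬ inn q' x) →
      ∃ K ∈ q.1.R, x ∈ K ∧ ∀ q' ≤ q, ∀ c ∈ K, ¬ inn q' c
  | .inr _, p, q => p ≤ p0 → ∃ y ∈ q.1.Y, y ∉ p.1.Y ∧ inn q y

theorem exists_closed [Uncountable Ω] (hα : Ind α) {inn : CP Ω α b → Ω → Prop} {p0 : CP Ω α b}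
    (hcl : ∀ q ≤ p0, ∀ x ∈ q.1.Y, (∀ q' ≤ q, ¬ inn q' x) →
      ∃ q' ≤ q, ∃ K ∈ q'.1.R, x ∈ K ∧ ∀ q'' ≤ q', ∀ c ∈ K, ¬ inn q'' c)
    (hun : ∀ q ≤ p0, ∃ q' ≤ q, ∃ y ∈ q'.1.Y, y ∉ q.1.Y ∧ inn q' y) (j0 : Ordinal.{0}) :
    ∃ j ≥ j0, Closed inn p0 j := by
  classical
  have hD : ∀ a p, ∃ q ≤ p, P4D inn p0 a p q := by
    rintro ((x | x) | x) p
    · by_cases h : ∃ q ≤ p, inn q x
      · obtain ⟨q, hq, hx⟩ := h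
        exact ⟨q, hq, Or.inl hx⟩
      · exact ⟨p, le_rfl, Or.inr fun q' hq' hx => h ⟨q', hq', hx⟩⟩
    · by_cases h : p ≤ p0 ∧ x ∈ p.1.Y ∧ ∀ q' ≤ p, ¬ inn q' x
      · obtain ⟨q', hq', K, hK, hxK, h3⟩ := hcl p h.1 x h.2.1 h.2.2
        exact ⟨q', hq', fun _ _ _ => ⟨K, hK, hxK, h3⟩⟩
      · exact ⟨p, le_rfl, fun h1 h2 h3 => absurd ⟨h1, h2, h3⟩ h⟩
    · by_cases h : p ≤ p0
      · obtain ⟨q', hq', y, hy, hyp, h3⟩ := hun p h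
        exact ⟨q', hq', fun _ => ⟨y, hy, hyp, h3⟩⟩
      · exact ⟨p, le_rfl, fun h1 => absurd h1 h⟩
  obtain ⟨i0, hi0⟩ := p0.2
  obtain ⟨j, hj, hc⟩ := closing (P4D inn p0) hD (max j0 i0)
  refine ⟨j, (le_max_left _ _).trans hj, V.mono ((le_max_right _ _).trans hj) hi0, ?_, ?_, ?_⟩
  · intro p hp x
    obtain ⟨q, hq, hqj, h⟩ := hc p hp (.inl (.inl x))
    exact ⟨q, hq, hqj, h⟩
  · intro p hp hp0 x hx hn
    obtain ⟨q, hq, hqj, h⟩ := hc p hp (.inl (.inr x))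
    exact ⟨q, hq, hqj, h hp0 hx hn⟩
  · intro p hp hp0
    obtain ⟨q, hq, hqj, h⟩ := hc p hp (.inr ())
    exact ⟨q, hq, hqj, h hp0⟩

end P4

end Pool.Agent.Helper33.QB
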