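import Pool.Agent.Helper92.QB.DenseLetter
import Pool.Agent.Helper18.QB.NmClosed

/-!
# Project QB (MP_0eabd7), module P7: `universal`
-/

set_option autoImplicit false
set_option linter.unusedVariables false

namespace Pool.Agent.Helper33.QB

open Set Pool.Agent.Helper33.HMG Pool.Agent.Helper32.HB

section P7

variable {Ω : Type} {α : Ordinal.{0}} {b : Ordinal.{0} → NmD Ω Ordinal.{0}}
  {inn : CP Ω α b → Ω → Prop} {p0 : CP Ω α b}

/-- Every closed unbounded set is the range of one of the maps. -/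
theorem universal [Uncountable Ω] (hα : Ind α) (hb : Book α b)
    (hm : ∀ p q x, q ≤ p → inn p x → inn q x)
    (hcl : ∀ q ≤ p0, ∀ x ∈ q.1.Y, (∀ q' ≤ q, ¬ inn q' x) →
      ∃ q' ≤ q, ∃ K ∈ q'.1.R, x ∈ K ∧ ∀ q'' ≤ q', ∀ c ∈ K, ¬ inn q'' c)
    (hun : ∀ q ≤ p0, ∃ q' ≤ q, ∃ y ∈ q'.1.Y, y ∉ q.1.Y ∧ inn q' y) :
    ∀ p ≤ p0, ∃ q ≤ p, ∃ i ∈ q.1.S, ∀ q' ≤ q, ∀ y ∈ q'.1.Y,
      (y ∈ q'.1.h i '' q'.1.Y → inn q' y) ∧
      (y ∉ q'.1.h i '' q'.1.Y → ∀ q'' ≤ q', ¬ inn q'' y) := by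
  classical
  intro p hp
  obtain ⟨ip, hip⟩ := p.2
  obtain ⟨j, hj, hc⟩ := exists_closed hα hcl hun ip
  have hpj : p.1 ∈ V α b j := V.mono hj hip
  have h0j : p0.1 ∈ V α b j := hc.mem
  obtain ⟨i, hi, hbi⟩ := hb (nmOf inn p0 j) j p0.basic (fun l hl => V.letters h0j l hl)
    (by
      rintro t ⟨P, hP, ht, -⟩
      rw [ht]
      exact ⟨P.basic, fun l hl => V.letters hP l hl⟩) j
  have hN : Nice (b i) (V α b i) := by
    rw [hbi]
    refine ⟨?_, ?_, ?_, ?_⟩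
    · intro p' hp' hle
      exact nm_dense hα hm hc hi hp' hle
    · intro p' hp' a r r' h1 h2 h1' h2'
      exact nm_cons hm hp' h1 h2 h1' h2'
    · intro p' hp' hd
      exact nm_closed hα hm hc hi hp' hd
    · intro p' hp' hd
      exact nm_unb hα hm hc hi hp' hd
  have hii : i < i + 1 := by simp
  have hpi : p.1 ∈ V α b (i + 1) := V.mono (hi.trans hii.le) hpj
  have hres : res p.1 i = p.1 :=
    res_eq_self p.basic fun l hl => (V.letters hpj l hl).trans_le hi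
  obtain ⟨q, hq, hqp, hiq⟩ := dense_letter hα hpi hii hN (by rw [hres, hbi]; exact hp)
  refine ⟨⟨q, i + 1, hq⟩, hqp, i, hiq, ?_⟩
  intro q' hq' y hy
  have hiq' : i ∈ q'.1.S := Le.S hq' hiq
  obtain ⟨i', hi'⟩ := q'.2
  obtain ⟨-, -, hdec, himg⟩ := (mem_V.1 hi').2 i hiq'
  rw [hbi] at hdec himg
  have hle : ∀ P : CP Ω α b, Le (res q'.1 i) P.1 → q' ≤ P := fun P hP =>
    Le.trans' q'.basic (Basic.res q'.basic i) (le_res q'.basic i) hP
  constructor
  · intro hyi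
    rw [himg] at hyi
    obtain ⟨-, p', ⟨P, -, hP, h1⟩, hle'⟩ := hyi
    change p' = P.1 at hP
    subst hP
    rcases h1 with ⟨-, h1⟩ | ⟨h1, -⟩
    · exact hm P q' y (hle P hle') h1
    · exact absurd h1 (by simp)
  · intro hyi q'' hq'' hin
    obtain ⟨ε, p', hpf, hle'⟩ := hdec.2 y hy
    cases ε with
    | true =>
      apply hyi
      rw [himg]
      exact ⟨hy, p', hpf, hle'⟩
    | false =>
      obtain ⟨P, -, hP, h1⟩ := hpf
      change p' = P.1 at hP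
      subst hP
      rcases h1 with ⟨h1, -⟩ | ⟨-, h1⟩
      · exact absurd h1 (by simp)
      · exact h1 q'' (hq''.trans (hle P hle')) hin

end P7

end Pool.Agent.Helper33.QB
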